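import Pool.Agent.H19.OM.Stm2

/-!
# Project OM, module C3: the modulus of `psi`
-/

set_option autoImplicit false

namespace Pool.Agent.H31.OM.C3

open Finset Pool.Agent.H19.OM

lemma val_le (p L r : ℕ) : val p L r ≤ L := by
  unfold Pool.Agent.H19.OM.val
  refine (card_filter_le _ _).trans ?_
  simp

lemma val_succ (p L r : ℕ) : val p (L + 1) r = val p L r + if p ^ (L + 1) ∣ r then 1 else 0 := by
  unfold Pool.Agent.H19.OM.val
  rw [← insert_Icc_right_eq_Icc_add_one (by omega), filter_insert]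
  split_ifs with h
  · rw [card_insert_of_notMem]
    simp
  · rfl

lemma val_succ_sq (p L r : ℕ) : (val p (L + 1) r : ℝ) ^ 2 ≤
    (val p L r : ℝ) ^ 2 + (2 * L + 1) * (if p ^ (L + 1) ∣ r then 1 else 0) := by
  have h1 : (val p L r : ℝ) ≤ L := by exact_mod_cast val_le p L r
  rw [val_succ]
  split_ifs with h
  · push_cast
    nlinarith
  · simp

lemma card_mul (d q : ℕ) : ((range (d * q)).filter (fun r => d ∣ r)).card ≤ q := by
  have h1 : (range (d * q)).filter (fun r => d ∣ r) ⊆ (range q).image (fun j => d * j) := by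
    intro r hr
    rw [mem_filter, mem_range] at hr
    obtain ⟨h2, j, rfl⟩ := hr
    rw [mem_image]
    exact ⟨j, mem_range.2 (Nat.lt_of_mul_lt_mul_left h2), rfl⟩
  exact (card_le_card h1).trans (card_image_le.trans (by simp))

lemma sum_sq (p : ℕ) (hp : 2 ≤ p) (K L : ℕ) (h : L ≤ K) :
    ∑ r ∈ range (p ^ K), (val p L r : ℝ) ^ 2 ≤
      (p : ℝ) ^ K * (2 / p * (3 - (2 * L + 3) / 2 ^ L)) := by
  have hp0 : (0 : ℝ) < p := by
    have : 0 < p := by omega
    exact_mod_cast this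
  induction L with
  | zero =>
    have h1 : ∀ r, val p 0 r = 0 := fun r => Nat.le_zero.1 (val_le p 0 r)
    simp [h1]
  | succ L ih =>
    have ih' := ih (by omega)
    have h1 : ∑ r ∈ range (p ^ K), (val p (L + 1) r : ℝ) ^ 2 ≤
        ∑ r ∈ range (p ^ K), ((val p L r : ℝ) ^ 2 +
          (2 * L + 1) * (if p ^ (L + 1) ∣ r then 1 else 0)) :=
      sum_le_sum fun r _ => val_succ_sq p L r
    rw [sum_add_distrib, ← mul_sum, sum_boole] at h1
    have h2 : ((((range (p ^ K)).filter (fun r => p ^ (L + 1) ∣ r)).card : ℕ) : ℝ) ≤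
        (p : ℝ) ^ K * (1 / p * (1 / 2 ^ L)) := by
      have e : p ^ K = p ^ (L + 1) * p ^ (K - (L + 1)) := by
        rw [← pow_add]
        congr 1
        omega
      have h3 := card_mul (p ^ (L + 1)) (p ^ (K - (L + 1)))
      rw [← e] at h3
      have h4 : ((((range (p ^ K)).filter (fun r => p ^ (L + 1) ∣ r)).card : ℕ) : ℝ) ≤
          (p : ℝ) ^ (K - (L + 1)) := by exact_mod_cast h3
      have e2 : (p : ℝ) ^ K = (p : ℝ) ^ (L + 1) * (p : ℝ) ^ (K - (L + 1)) := by exact_mod_cast e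
      have h5 : (2 : ℝ) ^ L ≤ (p : ℝ) ^ L := pow_le_pow_left₀ (by norm_num) (by exact_mod_cast hp) L
      have h6 : (p : ℝ) ^ (K - (L + 1)) ≤ (p : ℝ) ^ K * (1 / p * (1 / 2 ^ L)) := by
        rw [e2]
        have h7 : (1 : ℝ) ≤ (p : ℝ) ^ L / 2 ^ L := (one_le_div (by positivity)).2 h5
        have h8 : (p : ℝ) ^ (L + 1) * (p : ℝ) ^ (K - (L + 1)) * (1 / p * (1 / 2 ^ L)) =
            (p : ℝ) ^ (K - (L + 1)) * ((p : ℝ) ^ L / 2 ^ L) := by
          rw [pow_succ]
          field_simp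
        rw [h8]
        exact le_mul_of_one_le_right (by positivity) h7
      exact h4.trans h6
    have h9 : (2 * (L : ℝ) + 1) * ((((range (p ^ K)).filter (fun r => p ^ (L + 1) ∣ r)).card : ℕ) : ℝ)
        ≤ (2 * L + 1) * ((p : ℝ) ^ K * (1 / p * (1 / 2 ^ L))) :=
      mul_le_mul_of_nonneg_left h2 (by positivity)
    have e3 : (p : ℝ) ^ K * (2 / p * (3 - (2 * ((L + 1 : ℕ) : ℝ) + 3) / 2 ^ (L + 1))) =
        (p : ℝ) ^ K * (2 / p * (3 - (2 * L + 3) / 2 ^ L)) +
          (2 * L + 1) * ((p : ℝ) ^ K * (1 / p * (1 / 2 ^ L))) := by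
      rw [pow_succ]
      push_cast
      field_simp
      ring
    rw [e3]
    linarith

lemma mean_sq (p : ℕ) (hp : 2 ≤ p) (L : ℕ) :
    ∑ r ∈ range (p ^ L), (val p L r : ℝ) ^ 2 ≤ (p : ℝ) ^ L * (6 / p) := by
  have hp0 : (0 : ℝ) < p := by
    have : 0 < p := by omega
    exact_mod_cast this
  refine (sum_sq p hp L L le_rfl).trans ?_
  refine mul_le_mul_of_nonneg_left ?_ (by positivity)
  have h1 : (3 : ℝ) - (2 * L + 3) / 2 ^ L ≤ 3 := by
    have : (0 : ℝ) ≤ (2 * L + 3) / 2 ^ L := by positivity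
    linarith
  calc (2 : ℝ) / p * (3 - (2 * L + 3) / 2 ^ L) ≤ 2 / p * 3 :=
        mul_le_mul_of_nonneg_left h1 (by positivity)
    _ = 6 / p := by ring

lemma psi_re (p L : ℕ) (θ : ℝ) :
    (psi p L θ).re = (∑ r ∈ range (p ^ L), Real.cos (θ * val p L r)) / (p : ℝ) ^ L := by
  unfold psi
  have e : (p : ℂ) ^ L = (((p : ℝ) ^ L : ℝ) : ℂ) := by push_cast; rfl
  rw [e, Complex.div_ofReal_re, Complex.re_sum]
  congr 1
  refine sum_congr rfl fun r _ => ?_
  rw [Complex.exp_ofReal_mul_I_re]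

/-- (C3) the modulus of `psi` -/
theorem t_C3 : S_C3 := by
  intro p L m θ hp _ hθ
  have hp0 : (0 : ℝ) < p := by exact_mod_cast hp.pos
  have hpL : (0 : ℝ) < (p : ℝ) ^ L := pow_pos hp0 L
  constructor
  · unfold psi
    rw [norm_div, norm_pow, Complex.norm_natCast, div_le_one hpL]
    refine (norm_sum_le _ _).trans ?_
    have h1 : ∀ r ∈ range (p ^ L),
        ‖Complex.exp (((θ * val p L r : ℝ) : ℂ) * Complex.I)‖ ≤ 1 := fun r _ => by
      rw [Complex.norm_exp_ofReal_mul_I]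
    refine (sum_le_sum h1).trans ?_
    simp
  · have h1 : 1 - 3 * θ ^ 2 / p ≤ (psi p L θ).re := by
      rw [psi_re, le_div_iff₀ hpL]
      have h2 : ∑ r ∈ range (p ^ L), (1 - (θ * val p L r) ^ 2 / 2) ≤
          ∑ r ∈ range (p ^ L), Real.cos (θ * val p L r) :=
        sum_le_sum fun r _ => Real.one_sub_sq_div_two_le_cos
      refine le_trans ?_ h2
      have e : ∑ r ∈ range (p ^ L), (1 - (θ * (val p L r : ℝ)) ^ 2 / 2) =
          (p : ℝ) ^ L - θ ^ 2 / 2 * ∑ r ∈ range (p ^ L), (val p L r : ℝ) ^ 2 := by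
        rw [sum_sub_distrib, mul_sum]
        congr 1
        · simp
        · exact sum_congr rfl fun r _ => by ring
      rw [e]
      have h3 := mul_le_mul_of_nonneg_left (mean_sq p hp.two_le L)
        (show (0 : ℝ) ≤ θ ^ 2 / 2 by positivity)
      have e2 : (1 - 3 * θ ^ 2 / p) * (p : ℝ) ^ L =
          (p : ℝ) ^ L - θ ^ 2 / 2 * ((p : ℝ) ^ L * (6 / p)) := by
        field_simp
        ring
      rw [e2]
      linarith
    have h0 : 0 ≤ 1 - 3 * θ ^ 2 / p := by
      rw [sub_nonneg, div_le_one hp0]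
      exact hθ
    have h2 : 1 - 3 * θ ^ 2 / p ≤ ‖psi p L θ‖ := h1.trans (Complex.re_le_norm _)
    have h3 : (1 - 3 * θ ^ 2 / p) ^ (2 * m) ≤ ‖psi p L θ‖ ^ (2 * m) := pow_le_pow_left₀ h0 h2 _
    refine le_trans ?_ h3
    have h4 := one_add_mul_le_pow (a := -(3 * θ ^ 2 / (p : ℝ))) (by linarith) (2 * m)
    rw [← sub_eq_add_neg] at h4
    refine le_trans (le_of_eq ?_) h4
    push_cast
    ring

end Pool.Agent.H31.OM.C3
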