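import Pool.Agent.H19.OM.Stm
import Pool.Graph.R_seed8.Helper256.KM.Mertens

/-!
# Project OM, module TK: a Turán–Kubilius inequality for the number of prime factors `≤ y`

The prime powers `q = p ^ a ≤ N`, `p ≤ y`, are counted with the trivial bound `N` for their number.
-/

set_option autoImplicit false

namespace Pool.Agent.H31.OM

open Finset Pool.Agent.H19.OM

/-- indicator of `p ^ a ∣ n` -/
noncomputable def ind (i : ℕ × ℕ) (n : ℕ) : ℝ := if i.1 ^ i.2 ∣ n then 1 else 0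

/-- the primes up to `y` -/
def PY (y : ℕ) : Finset ℕ := (Icc 1 y).filter Nat.Prime

/-- the prime powers up to `N` -/
def II (y N : ℕ) : Finset (ℕ × ℕ) := (PY y ×ˢ Icc 1 N).filter (fun i => i.1 ^ i.2 ≤ N)

theorem mem_II {y N : ℕ} {i : ℕ × ℕ} (hi : i ∈ II y N) :
    i.1.Prime ∧ 1 ≤ i.2 ∧ i.2 ≤ N ∧ i.1 ^ i.2 ≤ N ∧ i.1 ∈ PY y := by
  simp only [II, PY, mem_filter, mem_product, mem_Icc] at hi ⊢
  tauto

theorem sum_dvd (N d : ℕ) : ∑ n ∈ Icc 1 N, (if d ∣ n then (1 : ℝ) else 0) = ((N / d : ℕ) : ℝ) := by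
  rw [← Nat.Ioc_filter_dvd_card_eq_div N d, Finset.sum_ite, sum_const_zero, add_zero,
    sum_const, nsmul_eq_mul, mul_one]
  congr 1

theorem sum_dvd_le (N d : ℕ) :
    ∑ n ∈ Icc 1 N, (if d ∣ n then (1 : ℝ) else 0) ≤ N * (1 / (d : ℝ)) := by
  rw [sum_dvd]
  refine (Nat.cast_div_le).trans (le_of_eq (by ring))

/-- the number of prime factors is a sum of indicators -/
theorem om_eq (y N n : ℕ) (hn : n ∈ Icc 1 N) : (Om y n : ℝ) = ∑ i ∈ II y N, ind i n := by
  rw [mem_Icc] at hn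
  have hn0 : n ≠ 0 := by omega
  have h1 : ∑ i ∈ II y N, ind i n = ∑ i ∈ PY y ×ˢ Icc 1 N, ind i n := by
    unfold II
    rw [sum_filter]
    refine sum_congr rfl fun i _ => ?_
    split_ifs with h
    · rfl
    · unfold ind
      rw [if_neg]
      intro hd
      exact h ((Nat.le_of_dvd (by omega) hd).trans hn.2)
  rw [h1, sum_product]
  have h2 : ∀ p ∈ PY y, ∑ a ∈ Icc 1 N, ind (p, a) n = (n.factorization p : ℝ) := by
    intro p hp
    have hpp : p.Prime := by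
      simp only [PY, mem_filter] at hp
      exact hp.2
    unfold ind
    rw [Finset.sum_ite, sum_const_zero, add_zero, sum_const, nsmul_eq_mul, mul_one]
    have h3 : (Icc 1 N).filter (fun a => p ^ a ∣ n) = Icc 1 (n.factorization p) := by
      ext a
      simp only [mem_filter, mem_Icc]
      rw [hpp.pow_dvd_iff_le_factorization hn0]
      constructor
      · rintro ⟨⟨h4, h5⟩, h6⟩
        exact ⟨h4, h6⟩
      · rintro ⟨h4, h6⟩
        have h7 : n.factorization p < n := Nat.factorization_lt p hn0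
        exact ⟨⟨h4, by omega⟩, h6⟩
    have h4 : ((Icc 1 N).filter (fun a => p ^ a ∣ n)).card = n.factorization p := by
      rw [h3, Nat.card_Icc]
      omega
    exact_mod_cast h4
  rw [sum_congr rfl h2]
  unfold Om
  push_cast
  have h5 : n.primeFactors.filter (fun p => p ≤ y) ⊆ PY y := by
    intro p hp
    simp only [mem_filter, Nat.mem_primeFactors, PY, mem_Icc] at hp ⊢
    exact ⟨⟨hp.1.1.one_lt.le, hp.2⟩, hp.1.1⟩
  refine sum_subset h5 fun p hp hp' => ?_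
  have h6 : n.factorization p = 0 := by
    by_contra h7
    apply hp'
    simp only [PY, mem_filter, mem_Icc] at hp
    rw [mem_filter]
    refine ⟨?_, hp.1.2⟩
    rw [← Nat.support_factorization]
    exact Finsupp.mem_support_iff.2 h7
  rw [h6]
  simp

/-- the number of the prime powers is at most `N` -/
theorem card_II (y N : ℕ) : (II y N).card ≤ N := by
  have h : (II y N).card ≤ (Icc 1 N).card := by
    refine Finset.card_le_card_of_injOn (fun i => i.1 ^ i.2) ?_ ?_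
    · intro i hi
      obtain ⟨h1, h2, h3, h4, h5⟩ := mem_II (mem_coe.1 hi)
      simp only [coe_Icc, Set.mem_Icc]
      exact ⟨Nat.one_le_pow _ _ h1.pos, h4⟩
    · intro i hi j hj hij
      obtain ⟨h1, h2, h3, h4, h5⟩ := mem_II (mem_coe.1 hi)
      obtain ⟨k1, k2, k3, k4, k5⟩ := mem_II (mem_coe.1 hj)
      simp only at hij
      have e1 : i.1 = j.1 := by
        have h6 : i.1 ∣ j.1 ^ j.2 := by
          rw [← hij]
          exact dvd_pow_self _ (by omega)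
        exact (Nat.prime_dvd_prime_iff_eq h1 k1).1 (h1.dvd_of_dvd_pow h6)
      rw [← e1] at hij
      have e2 : i.2 = j.2 := Nat.pow_right_injective h1.two_le hij
      exact Prod.ext e1 e2
  simpa using h

/-- the bound for the correlations -/
noncomputable def KK (i j : ℕ × ℕ) : ℝ :=
  1 / (i.1 : ℝ) ^ i.2 * (1 / (j.1 : ℝ) ^ j.2) + if i.1 = j.1 then 1 / (i.1 : ℝ) ^ (max i.2 j.2) else 0

theorem corr {y N : ℕ} {i j : ℕ × ℕ} (hi : i ∈ II y N) (hj : j ∈ II y N) :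
    ∑ n ∈ Icc 1 N, ind i n * ind j n ≤ N * KK i j := by
  obtain ⟨h1, h2, h3, h4, h5⟩ := mem_II hi
  obtain ⟨k1, k2, k3, k4, k5⟩ := mem_II hj
  unfold KK
  by_cases h : i.1 = j.1
  · rw [if_pos h]
    have e1 : ∑ n ∈ Icc 1 N, ind i n * ind j n ≤
        ∑ n ∈ Icc 1 N, (if i.1 ^ (max i.2 j.2) ∣ n then (1 : ℝ) else 0) := by
      refine sum_le_sum fun n _ => ?_
      unfold ind
      rw [← h]
      rcases le_total i.2 j.2 with h6 | h6
      · rw [max_eq_right h6]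
        split_ifs <;> norm_num
      · rw [max_eq_left h6]
        split_ifs <;> norm_num
    have e2 := sum_dvd_le N (i.1 ^ (max i.2 j.2))
    have e3 : (0 : ℝ) ≤ 1 / (i.1 : ℝ) ^ i.2 * (1 / (j.1 : ℝ) ^ j.2) := by positivity
    have e4 : (0 : ℝ) ≤ N * (1 / (i.1 : ℝ) ^ i.2 * (1 / (j.1 : ℝ) ^ j.2)) := by positivity
    push_cast at e2
    rw [mul_add]
    linarith
  · rw [if_neg h, add_zero]
    have e1 : ∑ n ∈ Icc 1 N, ind i n * ind j n ≤
        ∑ n ∈ Icc 1 N, (if i.1 ^ i.2 * j.1 ^ j.2 ∣ n then (1 : ℝ) else 0) := by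
      refine sum_le_sum fun n _ => ?_
      unfold ind
      by_cases h6 : i.1 ^ i.2 ∣ n
      · by_cases h7 : j.1 ^ j.2 ∣ n
        · have hc : Nat.Coprime (i.1 ^ i.2) (j.1 ^ j.2) :=
            Nat.Coprime.pow _ _ ((Nat.coprime_primes h1 k1).2 h)
          rw [if_pos h6, if_pos h7, if_pos (hc.mul_dvd_of_dvd_of_dvd h6 h7)]
          norm_num
        · rw [if_neg h7, mul_zero]
          split_ifs <;> norm_num
      · rw [if_neg h6, zero_mul]
        split_ifs <;> norm_num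
    have e2 := sum_dvd_le N (i.1 ^ i.2 * j.1 ^ j.2)
    push_cast at e2
    refine e1.trans (e2.trans (le_of_eq ?_))
    rw [one_div_mul_one_div]

/-- the geometric series -/
theorem geo (N : ℕ) : ∑ a ∈ Icc 1 N, ((3 : ℝ) / 4) ^ (a - 1) ≤ 4 := by
  have h1 : ∑ a ∈ Icc 1 N, ((3 : ℝ) / 4) ^ (a - 1) = ∑ a ∈ range N, ((3 : ℝ) / 4) ^ a := by
    rw [Finset.range_eq_Ico, Finset.sum_Ico_eq_sum_range]
    rw [show Icc 1 N = Ico 1 (N + 1) from by ext; simp, Finset.sum_Ico_eq_sum_range]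
    refine sum_congr (by simp) fun a _ => ?_
    congr 1
    omega
  rw [h1, geom_sum_eq (by norm_num)]
  have h2 : (0 : ℝ) < (3 / 4) ^ N := by positivity
  rw [div_le_iff_of_neg (by norm_num)]
  linarith

theorem pw {p : ℕ} (hp : p.Prime) {a b : ℕ} (ha : 1 ≤ a) (hb : 1 ≤ b) :
    1 / (p : ℝ) ^ (max a b) ≤ 1 / (p : ℝ) * (((3 : ℝ) / 4) ^ (a - 1) * ((3 : ℝ) / 4) ^ (b - 1)) := by
  have hp2 : (2 : ℝ) ≤ p := by exact_mod_cast hp.two_le
  have hp0 : (0 : ℝ) < p := by linarith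
  have h1 : 1 / (p : ℝ) ≤ ((3 : ℝ) / 4) ^ 2 := by
    rw [div_le_iff₀ hp0]
    nlinarith
  have h2 : 1 / (p : ℝ) ^ (max a b) = 1 / (p : ℝ) * (1 / (p : ℝ)) ^ (max a b - 1) := by
    rw [← pow_succ', show max a b - 1 + 1 = max a b by omega, one_div_pow]
  rw [h2]
  refine mul_le_mul_of_nonneg_left ?_ (by positivity)
  calc (1 / (p : ℝ)) ^ (max a b - 1) ≤ (((3 : ℝ) / 4) ^ 2) ^ (max a b - 1) :=
        pow_le_pow_left₀ (by positivity) h1 _
    _ = ((3 : ℝ) / 4) ^ (2 * (max a b - 1)) := by rw [pow_mul]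
    _ ≤ ((3 : ℝ) / 4) ^ ((a - 1) + (b - 1)) := by
        refine pow_le_pow_of_le_one (by norm_num) (by norm_num) ?_
        have := le_max_left a b
        have := le_max_right a b
        omega
    _ = _ := pow_add _ _ _

/-- the sum of the reciprocals of the primes -/
noncomputable def TT (y : ℕ) : ℝ := ∑ p ∈ PY y, 1 / (p : ℝ)

theorem mu_le (y N : ℕ) : ∑ i ∈ II y N, 1 / (i.1 : ℝ) ^ i.2 ≤ 4 * TT y := by
  have h1 : ∑ i ∈ II y N, 1 / (i.1 : ℝ) ^ i.2 ≤
      ∑ i ∈ PY y ×ˢ Icc 1 N, 1 / (i.1 : ℝ) ^ i.2 :=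
    sum_le_sum_of_subset_of_nonneg (filter_subset _ _) fun _ _ _ => by positivity
  refine h1.trans ?_
  rw [sum_product, TT, mul_sum]
  refine sum_le_sum fun p hp => ?_
  have hpp : p.Prime := by
    simp only [PY, mem_filter] at hp
    exact hp.2
  have h2 : ∀ a ∈ Icc 1 N, 1 / (p : ℝ) ^ a ≤ 1 / (p : ℝ) * ((3 : ℝ) / 4) ^ (a - 1) := by
    intro a ha
    rw [mem_Icc] at ha
    have h3 := pw hpp ha.1 (le_refl 1)
    rw [max_eq_left ha.1] at h3
    simpa using h3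
  refine (sum_le_sum h2).trans ?_
  rw [← mul_sum, mul_comm (4 : ℝ)]
  exact mul_le_mul_of_nonneg_left (geo N) (by positivity)

theorem V_le (y N : ℕ) : ∑ i ∈ II y N, ∑ j ∈ II y N,
    (if i.1 = j.1 then 1 / (i.1 : ℝ) ^ (max i.2 j.2) else 0) ≤ 16 * TT y := by
  have h0 : ∀ i j : ℕ × ℕ, (0 : ℝ) ≤ if i.1 = j.1 then 1 / (i.1 : ℝ) ^ (max i.2 j.2) else 0 := by
    intro i j
    split_ifs
    · positivity
    · exact le_rfl
  have h1 : ∑ i ∈ II y N, ∑ j ∈ II y N,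
      (if i.1 = j.1 then 1 / (i.1 : ℝ) ^ (max i.2 j.2) else 0) ≤
      ∑ i ∈ PY y ×ˢ Icc 1 N, ∑ j ∈ PY y ×ˢ Icc 1 N,
      (if i.1 = j.1 then 1 / (i.1 : ℝ) ^ (max i.2 j.2) else 0) := by
    refine (sum_le_sum fun i _ => sum_le_sum_of_subset_of_nonneg (filter_subset _ _)
      fun j _ _ => h0 i j).trans ?_
    exact sum_le_sum_of_subset_of_nonneg (filter_subset _ _)
      fun i _ _ => sum_nonneg fun j _ => h0 i j
  refine h1.trans ?_
  rw [sum_product, TT, mul_sum]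
  refine sum_le_sum fun p hp => ?_
  have hpp : p.Prime := by
    simp only [PY, mem_filter] at hp
    exact hp.2
  have h2 : ∀ a ∈ Icc 1 N, ∑ j ∈ PY y ×ˢ Icc 1 N,
      (if p = j.1 then 1 / (p : ℝ) ^ (max a j.2) else 0) ≤
      1 / (p : ℝ) * (((3 : ℝ) / 4) ^ (a - 1) * 4) := by
    intro a ha
    rw [mem_Icc] at ha
    rw [sum_product]
    simp only
    have h3 : ∀ q ∈ PY y, q ≠ p →
        ∑ b ∈ Icc 1 N, (if p = q then 1 / (p : ℝ) ^ (max a b) else 0) = 0 := by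
      intro q _ hq
      refine sum_eq_zero fun b _ => if_neg (fun h => hq h.symm)
    rw [sum_eq_single_of_mem p hp h3]
    simp only [if_true]
    refine (sum_le_sum fun b hb => pw hpp ha.1 (mem_Icc.1 hb).1).trans ?_
    rw [← mul_sum, ← mul_sum]
    have := geo N
    refine mul_le_mul_of_nonneg_left ?_ (by positivity)
    exact mul_le_mul_of_nonneg_left this (by positivity)
  refine (sum_le_sum h2).trans ?_
  rw [← mul_sum, ← sum_mul, mul_comm (16 : ℝ)]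
  refine mul_le_mul_of_nonneg_left ?_ (by positivity)
  have := geo N
  linarith

/-- (TK) Turán–Kubilius -/
theorem t_TK : S_TK := by
  obtain ⟨C, hC⟩ := Pool.Agent.Helper256.KM.Mert.mertens_inv
  refine ⟨24 * (1 + |C|), by positivity, fun y N hy hN => ?_⟩
  obtain ⟨μ, hμ⟩ : ∃ μ : ℝ, μ = ∑ i ∈ II y N, 1 / (i.1 : ℝ) ^ i.2 := ⟨_, rfl⟩
  refine ⟨μ, ?_⟩
  have hμ0 : 0 ≤ μ := by
    rw [hμ]
    exact sum_nonneg fun i _ => by positivity
  have hμT : μ ≤ 4 * TT y := by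
    rw [hμ]
    exact mu_le y N
  -- first moment
  have hM : (N : ℝ) * μ - N ≤ ∑ n ∈ Icc 1 N, ∑ i ∈ II y N, ind i n := by
    rw [sum_comm]
    have h1 : ∀ i ∈ II y N, (N : ℝ) * (1 / (i.1 : ℝ) ^ i.2) - 1 ≤ ∑ n ∈ Icc 1 N, ind i n := by
      intro i hi
      obtain ⟨h1, h2, h3, h4, h5⟩ := mem_II hi
      unfold ind
      rw [sum_dvd]
      have h6 : 0 < i.1 ^ i.2 := Nat.pow_pos h1.pos
      have h7 : (N : ℝ) < ((N / i.1 ^ i.2 : ℕ) + 1 : ℝ) * ((i.1 ^ i.2 : ℕ) : ℝ) := by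
        have h8 : N < (N / i.1 ^ i.2 + 1) * i.1 ^ i.2 := by
          rw [mul_comm]
          exact Nat.lt_mul_div_succ N h6
        exact_mod_cast h8
      have h9 : (0 : ℝ) < ((i.1 ^ i.2 : ℕ) : ℝ) := by exact_mod_cast h6
      have h10 : (N : ℝ) / ((i.1 ^ i.2 : ℕ) : ℝ) < ((N / i.1 ^ i.2 : ℕ) + 1 : ℝ) := by
        rw [div_lt_iff₀ h9]
        exact h7
      push_cast at h10
      rw [mul_one_div]
      linarith
    refine le_trans ?_ (sum_le_sum h1)
    rw [sum_sub_distrib, ← mul_sum, ← hμ, sum_const, nsmul_eq_mul, mul_one]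
    have : ((II y N).card : ℝ) ≤ N := by exact_mod_cast card_II y N
    linarith
  -- second moment
  have hS : ∑ n ∈ Icc 1 N, (∑ i ∈ II y N, ind i n) ^ 2 ≤ N * (μ ^ 2 + 16 * TT y) := by
    have h1 : ∑ n ∈ Icc 1 N, (∑ i ∈ II y N, ind i n) ^ 2 =
        ∑ i ∈ II y N, ∑ j ∈ II y N, ∑ n ∈ Icc 1 N, ind i n * ind j n := by
      simp_rw [pow_two, sum_mul_sum]
      rw [sum_comm]
      refine sum_congr rfl fun i _ => ?_
      rw [sum_comm]
    rw [h1]
    refine (sum_le_sum fun i hi => sum_le_sum fun j hj => corr hi hj).trans ?_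
    unfold KK
    simp_rw [← mul_sum, sum_add_distrib]
    refine mul_le_mul_of_nonneg_left ?_ (Nat.cast_nonneg N)
    refine add_le_add (le_of_eq ?_) (V_le y N)
    rw [pow_two, hμ, sum_mul_sum]
  have hexp : ∑ n ∈ Icc 1 N, ((Om y n : ℝ) - μ) ^ 2 =
      ∑ n ∈ Icc 1 N, (∑ i ∈ II y N, ind i n) ^ 2 -
        2 * μ * ∑ n ∈ Icc 1 N, ∑ i ∈ II y N, ind i n + N * μ ^ 2 := by
    have h1 : ∀ n ∈ Icc 1 N, ((Om y n : ℝ) - μ) ^ 2 =
        (∑ i ∈ II y N, ind i n) ^ 2 - 2 * μ * (∑ i ∈ II y N, ind i n) + μ ^ 2 := by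
      intro n hn
      rw [om_eq y N n hn]
      ring
    rw [sum_congr rfl h1, sum_add_distrib, sum_sub_distrib, ← mul_sum, sum_const, Nat.card_Icc,
      nsmul_eq_mul, Nat.add_sub_cancel]
  rw [hexp]
  have h2 : 2 * μ * ((N : ℝ) * μ - N) ≤
      2 * μ * ∑ n ∈ Icc 1 N, ∑ i ∈ II y N, ind i n :=
    mul_le_mul_of_nonneg_left hM (by positivity)
  have h3 : TT y ≤ Real.log (Real.log y) + |C| := by
    have h4 := (abs_le.1 (hC y hy)).2
    have h5 := le_abs_self C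
    have h6 : TT y = ∑ p ∈ (Finset.Icc 1 y).filter Nat.Prime, (1 : ℝ) / p := rfl
    linarith
  have h7 : 0 ≤ Real.log (Real.log y) := by
    refine Real.log_nonneg ?_
    have h8 : Real.exp 1 ≤ y := by
      have := Real.exp_one_lt_d9
      have h9 : (3 : ℝ) ≤ y := by exact_mod_cast hy
      linarith
    have h10 := Real.log_le_log (Real.exp_pos 1) h8
    rwa [Real.log_exp] at h10
  have hN0 : (0 : ℝ) ≤ N := Nat.cast_nonneg N
  have h8 : (N : ℝ) * (μ ^ 2 + 16 * TT y) - 2 * μ * ((N : ℝ) * μ - N) + N * μ ^ 2 =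
      N * (16 * TT y + 2 * μ) := by ring
  have h9 : (N : ℝ) * (16 * TT y + 2 * μ) ≤ N * (24 * TT y) :=
    mul_le_mul_of_nonneg_left (by linarith) hN0
  have h10 : (N : ℝ) * (24 * TT y) ≤ N * (24 * (1 + |C|) * (1 + Real.log (Real.log y))) := by
    refine mul_le_mul_of_nonneg_left ?_ hN0
    have := abs_nonneg C
    nlinarith [mul_nonneg (abs_nonneg C) h7]
  linarith

end Pool.Agent.H31.OM
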